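import Pool.Agent.Helper76.CV.Goals

set_option autoImplicit false

open scoped ContDiff
open Filter Topology

namespace Pool.Agent.Helper51.CV.NFB

open Pool.Agent.Helper76.CV

theorem t (xb : XB) (jet : JET3) (deu : DEU) (baq : BAQ) (gaq : GAQ) : Pool.Agent.Helper76.CV.NFB := by
  intro r D p z hG hp hLf hz
  obtain ⟨-, hp2, hnear, hdiff⟩ := hLf
  obtain ⟨hcos, hU0, -, hC1, -, -⟩ := xb r D p hG hp
  have hz0 : z p.1 = 0 := hz.self_of_nhds
  have hp20 : p.2 = 0 := by rw [hp2, hz0]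
  have hfz : fderiv ℝ z p.1 = 0 := by
    have h1 : z =ᶠ[𝓝 p.1] fun _ => (0 : ℝ) := hz
    rw [h1.fderiv_eq]
    simp
  have hUz : U D p.1 = 0 := by
    rw [hp20, Real.cos_zero] at hcos
    have h1 : -(13 / 2 * U D p.1) = 0 := by
      rw [← Real.exp_eq_one_iff]
      exact hcos.symm
    linarith
  have hny : ‖p.1.2‖ ^ 2 = 1 - D.C p.1.1 := by
    have h1 : 1 - ‖p.1.2‖ ^ 2 - D.C p.1.1 = 0 := hUz
    linarith
  have hcas : FlatOK (D.C p.1.1) (deriv D.C p.1.1 / 2) (deriv (deriv D.C) p.1.1 / 2) ∨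
      CapOK (D.C p.1.1) (deriv D.C p.1.1 / 2) (deriv (deriv D.C) p.1.1 / 2) ∨
      NeckOK (D.C p.1.1) (deriv D.C p.1.1 / 2) (deriv (deriv D.C) p.1.1 / 2) := by
    rcases hG.cas p.1.1 hC1 with h | h | h
    · exact Or.inl h.1
    · exact Or.inr (Or.inl h.1)
    · exact Or.inr (Or.inr h)
  have hB := fun (η : E (r + 3)) (τ : ℝ) => baq r p.1.2 η (D.C p.1.1) (deriv D.C p.1.1 / 2)
    (deriv (deriv D.C) p.1.1 / 2) τ hny hcas
  obtain ⟨hw, hpos, -⟩ := hB 0 0 (by simp)
  refine ⟨p.1.2, deriv D.C p.1.1 / 2 / wr p.1.2, -13, 0, hpos, by norm_num, ?_, ?_⟩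
  · intro ξ
    rw [hdiff ξ, hp20, hUz, hfz, deu r D p.1 ξ.1 hG.sC]
    ext
    · simp only [Real.sin_zero, mul_zero, neg_zero, Real.exp_zero]
      field_simp
      simp
      ring
    · simp
  · intro T Y s u hT hY hs hX hpu
    have hcont : ContinuousAt (fun u' => ((T u', Y u'), s u')) u :=
      (hT.continuousAt.prodMk hY.continuousAt).prodMk hs.continuousAt
    have hpu' : ((T u, Y u), s u) = p := hpu
    have ht : Tendsto (fun u' => ((T u', Y u'), s u')) (𝓝 u) (𝓝 p) := by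
      have := hcont.tendsto
      rwa [hpu'] at this
    have h1 : ∀ᶠ u' in 𝓝 u, ((T u', Y u'), s u') ∈ X D → s u' = z (T u', Y u') := ht.eventually hnear
    have ht1 : Tendsto (fun u' => (T u', Y u')) (𝓝 u) (𝓝 p.1) := by
      have := (continuous_fst.tendsto p).comp ht
      exact this
    have h2 : ∀ᶠ u' in 𝓝 u, z (T u', Y u') = 0 := ht1.eventually hz
    have h3 : (fun u' => U D (T u', Y u')) =ᶠ[𝓝 u] fun _ => (0 : ℝ) := by
      filter_upwards [h1, h2, hX] with u' a1 a2 a3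
      have a4 : s u' = 0 := by rw [a1 a3, a2]
      have a5 : Real.cos (s u') - Real.exp (-(13 / 2 * U D (T u', Y u'))) = 0 := by
        have := congrArg Prod.fst (show H D ((T u', Y u'), s u') = 0 from a3)
        exact this
      rw [a4, Real.cos_zero] at a5
      have a6 : -(13 / 2 * U D (T u', Y u')) = 0 := by
        rw [← Real.exp_eq_one_iff]
        linarith
      linarith
    obtain ⟨-, j1, j2⟩ := jet r D T Y u hG.sC hT hY
    rw [h3.deriv_eq] at j1
    rw [h3.deriv.deriv_eq] at j2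
    have hTu : T u = p.1.1 := by rw [← hpu']
    have hYu : Y u = p.1.2 := by rw [← hpu']
    rw [hTu, hYu] at j1 j2
    simp only [deriv_const', deriv_const] at j1 j2
    set η := deriv Y u with hη
    set τ := deriv T u with hτ
    have hort : inner ℝ p.1.2 η + deriv D.C p.1.1 / 2 / wr p.1.2 * (wr p.1.2 * τ) = 0 := by
      have : deriv D.C p.1.1 / 2 / wr p.1.2 * (wr p.1.2 * τ) = deriv D.C p.1.1 / 2 * τ := by
        field_simp
      rw [this]
      linarith
    obtain ⟨-, -, hfin⟩ := hB η τ hort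
    have hga := gaq r p.1.2 η (deriv D.C p.1.1 / 2 / wr p.1.2) (wr p.1.2) τ hw
    have e1 : inner ℝ p.1.2 (deriv (deriv Y) u - (4 / 5 * wr p.1.2 * τ ^ 2) • e0) +
          deriv D.C p.1.1 / 2 / wr p.1.2 * (wr p.1.2 * deriv (deriv T) u + 8 / 5 * τ * η 0) =
        -(‖η‖ ^ 2 + deriv (deriv D.C) p.1.1 / 2 * τ ^ 2) +
          (inner ℝ p.1.2 (-((4 / 5 * wr p.1.2 * τ ^ 2) • e0)) +
            deriv D.C p.1.1 / 2 / wr p.1.2 * (8 / 5 * τ * η 0)) := by
      rw [sub_eq_add_neg, inner_add_right]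
      have : deriv D.C p.1.1 / 2 / wr p.1.2 * (wr p.1.2 * deriv (deriv T) u + 8 / 5 * τ * η 0) =
          deriv D.C p.1.1 / 2 * deriv (deriv T) u +
            deriv D.C p.1.1 / 2 / wr p.1.2 * (8 / 5 * τ * η 0) := by
        field_simp
      rw [this]
      linarith
    rw [e1]
    refine (abs_add_le _ _).trans ?_
    rw [abs_neg]
    linarith

end Pool.Agent.Helper51.CV.NFB
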